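import Mathlib
import Pool.Agent.Lib.helper29.Orbit2

set_option autoImplicit false

namespace Pool.Agent.Results.MP_5c6457_an.Universal

open MeasureTheory Pool.Agent.Lib.H29.Orbit

lemma rep {ι H I : Type} [NormedAddCommGroup H] [InnerProductSpace ℂ H] [CompleteSpace H]
    [Add I] [One I] (hI : Function.Injective fun k : I => k + 1) {v : ι → H} (hv : IsRieszBasis v)
    (σ : I ≃ ι) : ∃ T : H →L[ℂ] H, Function.Injective T ∧ ∀ k, T (v (σ k)) = v (σ (k + 1)) := by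
  obtain ⟨e, U, hU⟩ := hv
  let s : ι → ι := fun i => σ (σ.symm i + 1)
  have hs : Function.Injective s := fun i j hij => σ.symm.injective (hI (σ.injective hij))
  obtain ⟨S, hS⟩ := exists_iso e (e.orthonormal.comp s hs)
  refine ⟨(U : H →L[ℂ] H) ∘L S.toContinuousLinearMap ∘L (U.symm : H →L[ℂ] H),
    U.injective.comp (S.injective.comp U.symm.injective), fun k => ?_⟩
  simp [hU, hS, s]

/-- Every ordering is universal. -/
theorem result :
    (∀ σ : ℕ ≃ ℤ × ℤ, ∀ (a b : ℝ) (g : Lp ℂ 2 (volume : Measure ℝ))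
      (v : ℤ × ℤ → Lp ℂ 2 (volume : Measure ℝ)), 0 < a → 0 < b → g ≠ 0 → IsGabor a b g v →
      IsFrame v → (∃ τ : ℕ ≃ ℤ × ℤ, BoundedRep (v ∘ τ)) →
      ∃ T : Lp ℂ 2 (volume : Measure ℝ) →L[ℂ] Lp ℂ 2 (volume : Measure ℝ),
        Function.Injective T ∧ ∀ k, T (v (σ k)) = v (σ (k + 1))) ∧
    (∀ σ : ℤ ≃ ℤ × ℤ, ∀ (a b : ℝ) (g : Lp ℂ 2 (volume : Measure ℝ))
      (v : ℤ × ℤ → Lp ℂ 2 (volume : Measure ℝ)), 0 < a → 0 < b → g ≠ 0 → IsGabor a b g v →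
      IsFrame v → (∃ τ : ℤ ≃ ℤ × ℤ, BoundedRep (v ∘ τ)) →
      ∃ T : Lp ℂ 2 (volume : Measure ℝ) →L[ℂ] Lp ℂ 2 (volume : Measure ℝ),
        Function.Injective T ∧ ∀ k, T (v (σ k)) = v (σ (k + 1))) := by
  have : Fact ((2 : ENNReal) ≠ ⊤) := ⟨by norm_num⟩
  constructor
  · rintro σ a b g v - - - hv hf ⟨τ, h⟩
    obtain ⟨h0, h1⟩ := gabor_norm hv hf
    obtain ⟨e⟩ := exists_basis hf h0 h1
    exact rep (add_left_injective 1) (abstract_nat e hf h0 h1 τ h) σ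
  · rintro σ a b g v - - - hv hf ⟨τ, h⟩
    obtain ⟨h0, h1⟩ := gabor_norm hv hf
    obtain ⟨e⟩ := exists_basis hf h0 h1
    exact rep (add_left_injective 1) (abstract_int e hf h0 h1 (gabor_cov hv) τ h) σ

end Pool.Agent.Results.MP_5c6457_an.Universal
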